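import Mathlib

/-!
Surjunctivity is a local property of monoids: if `τ` is an injective cellular automaton over `M`
with memory set `S`, then for some finitely generated submonoid `N` containing `S` the cellular
automaton over `N` with the same rule is injective, and if it is surjective so is `τ`.
-/

namespace Pool.Agent.K4H32.SJ

open Set

/-- the cellular automaton on `A ^ M` with memory set `S` and local rule `μ` -/
def ca {M A : Type*} [Monoid M] (S : Finset M) (μ : (S → A) → A) (x : M → A) (m : M) : A :=
  μ (fun s => x (m * s.1))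

/-- the same rule on `A ^ N`, for a submonoid `N` containing the memory set -/
def caN {M A : Type*} [Monoid M] (S : Finset M) (μ : (S → A) → A) (N : Submonoid M)
    (hS : ∀ s ∈ S, s ∈ N) (x : N → A) (n : N) : A :=
  μ (fun s => x (n * ⟨s.1, hS s.1 s.2⟩))

lemma isClosed_eq_coord {M A : Type*} [Monoid M] [Finite A] [TopologicalSpace A]
    [DiscreteTopology A] (S : Finset M) (μ : (S → A) → A) (m : M) :
    Continuous fun x : M → A => ca S μ x m := by
  unfold ca
  have h1 : Continuous μ := continuous_of_discreteTopology
  exact h1.comp (continuous_pi fun s => continuous_apply _)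

/-- finitely many values of `τ x` determine `x 1` -/
lemma exists_window {M A : Type*} [Monoid M] [Finite A] (S : Finset M) (μ : (S → A) → A)
    (hinj : Function.Injective (ca S μ)) :
    ∃ F : Finset M, ∀ x y : M → A, (∀ m ∈ F, ca S μ x m = ca S μ y m) → x 1 = y 1 := by
  classical
  letI : TopologicalSpace A := ⊥
  haveI : DiscreteTopology A := ⟨rfl⟩
  by_contra hcon
  push Not at hcon
  let K : Finset M → Set ((M → A) × (M → A)) := fun F =>
    {p | (∀ m ∈ F, ca S μ p.1 m = ca S μ p.2 m) ∧ p.1 1 ≠ p.2 1}
  have hKne : ∀ F, (K F).Nonempty := fun F => by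
    obtain ⟨x, y, h1, h2⟩ := hcon F
    exact ⟨(x, y), h1, h2⟩
  have hKc : ∀ F, IsClosed (K F) := fun F => by
    have : K F = (⋂ m ∈ F, {p : (M → A) × (M → A) | ca S μ p.1 m = ca S μ p.2 m}) ∩
        {p : (M → A) × (M → A) | p.1 1 ≠ p.2 1} := by
      ext p; simp [K]
    rw [this]
    refine IsClosed.inter ?_ ?_
    · refine isClosed_biInter fun m _ => isClosed_eq ?_ ?_
      · exact (isClosed_eq_coord S μ m).comp continuous_fst
      · exact (isClosed_eq_coord S μ m).comp continuous_snd
    · have hc : Continuous fun p : (M → A) × (M → A) => (p.1 1, p.2 1) := by fun_prop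
      exact (isClosed_discrete {q : A × A | q.1 ≠ q.2}).preimage hc
  have hdir : Directed (· ⊇ ·) K := by
    intro F G
    refine ⟨F ∪ G, ?_, ?_⟩
    · rintro p ⟨h1, h2⟩
      exact ⟨fun m hm => h1 m (Finset.mem_union_left _ hm), h2⟩
    · rintro p ⟨h1, h2⟩
      exact ⟨fun m hm => h1 m (Finset.mem_union_right _ hm), h2⟩
  obtain ⟨p, hp⟩ := IsCompact.nonempty_iInter_of_directed_nonempty_isCompact_isClosed K hdir hKne
    (fun F => (hKc F).isCompact) hKc
  rw [mem_iInter] at hp
  have h1 : ca S μ p.1 = ca S μ p.2 := by
    funext m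
    exact (hp {m}).1 m (Finset.mem_singleton_self m)
  exact (hp ∅).2 (congrFun (hinj h1) 1)

theorem local_surj {M A : Type*} [Monoid M] [Finite A] (S : Finset M) (μ : (S → A) → A)
    (hinj : Function.Injective (ca S μ)) :
    ∃ (G : Finset M) (hS : ∀ s ∈ S, s ∈ Submonoid.closure (G : Set M)),
      Function.Injective (caN S μ (Submonoid.closure (G : Set M)) hS) ∧
      (Function.Surjective (caN S μ (Submonoid.closure (G : Set M)) hS) →
        Function.Surjective (ca S μ)) := by
  classical
  obtain ⟨F, hF⟩ := exists_window S μ hinj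
  rcases isEmpty_or_nonempty A with hA | ⟨⟨a0⟩⟩
  · refine ⟨S, fun s hs => Submonoid.subset_closure hs, ?_, ?_⟩
    · intro x y _
      exact (hA.false (x 1)).elim
    · intro _ z
      exact (hA.false (z 1)).elim
  set N := Submonoid.closure ((S ∪ F : Finset M) : Set M) with hN
  have hS : ∀ s ∈ S, s ∈ N := fun s hs =>
    Submonoid.subset_closure (by simpa using Or.inl hs)
  have hFN : ∀ s ∈ F, s ∈ N := fun s hs =>
    Submonoid.subset_closure (by simpa using Or.inr hs)
  -- extension by a constant
  let ext : (N → A) → (M → A) := fun x m => if h : m ∈ N then x ⟨m, h⟩ else a0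
  have hext : ∀ (x : N → A) (n : N), ext x n = x n := fun x n => by
    simp [ext, n.2]
  have hca : ∀ (x : N → A) (n : N), ca S μ (ext x) n = caN S μ N hS x n := by
    intro x n
    unfold ca caN
    congr 1
    funext s
    exact hext x (n * ⟨s.1, hS s.1 s.2⟩)
  -- equivariance
  have hequi : ∀ (x : N → A) (n k : N), caN S μ N hS (fun j => x (n * j)) k
      = caN S μ N hS x (n * k) := by
    intro x n k
    unfold caN
    congr 1
    funext s
    rw [mul_assoc]
  have hinjN : Function.Injective (caN S μ N hS) := by
    intro x y hxy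
    funext n
    have := hF (ext fun j => x (n * j)) (ext fun j => y (n * j)) (by
      intro m hm
      have e1 := hca (fun j => x (n * j)) ⟨m, hFN m hm⟩
      have e2 := hca (fun j => y (n * j)) ⟨m, hFN m hm⟩
      simp only at e1 e2
      rw [e1, e2, hequi, hequi, hxy])
    have e1 := hext (fun j => x (n * j)) 1
    have e2 := hext (fun j => y (n * j)) 1
    simp only [Submonoid.coe_one, mul_one] at e1 e2
    rw [← e1, ← e2, this]
  refine ⟨S ∪ F, hS, hinjN, ?_⟩
  intro hsurj z
  choose inv hinv using hsurj
  -- `inv` is equivariant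
  have hinvE : ∀ (w : N → A) (n : N), inv (fun j => w (n * j)) = fun j => inv w (n * j) := by
    intro w n
    apply hinjN
    rw [hinv]
    funext k
    rw [hequi, hinv]
  refine ⟨fun m => inv (fun n : N => z (m * n)) 1, ?_⟩
  funext m
  have key : ∀ n : N, inv (fun k : N => z (m * n * k)) 1 = inv (fun k : N => z (m * k)) n := by
    intro n
    have := congrFun (hinvE (fun k : N => z (m * k)) n) 1
    simp only [Submonoid.coe_mul, mul_one, ← mul_assoc] at this
    exact this
  have h1 : ca S μ (fun m => inv (fun n : N => z (m * n)) 1) m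
      = caN S μ N hS (inv (fun k : N => z (m * k))) 1 := by
    unfold ca caN
    congr 1
    funext s
    rw [one_mul]
    exact key ⟨s.1, hS s.1 s.2⟩
  rw [h1, hinv]
  simp

end Pool.Agent.K4H32.SJ
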